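import Pool.Agent.H60.LCSM.Z

/-!
# lcs_modules GAP: the upper bound in the class of a square of a prime
-/

set_option autoImplicit false

namespace Pool.Agent.H60.LCSM

open Finset Filter Pool.Agent.H44.MS Pool.Agent.H90.LC Pool.Agent.H90.CS

/-- the primes of the sieve -/
def PP (R z : ℕ) : Finset ℕ :=
  (Icc 1 z).filter (fun p => p.Prime ∧ (p % 4 = 3 ∨ (p % 4 = 1 ∧ p ≤ R)))

theorem prod_PP {R z : ℕ} (h : R ≤ z) :
    ∏ p ∈ PP R z, (1 - 1 / (p : ℝ)) = VA (A3 2) z * VR R := by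
  rw [VA2_eq]
  unfold VR
  rw [← prod_union]
  · refine prod_congr ?_ fun _ _ => rfl
    ext p
    simp only [PP, mem_filter, mem_union, mem_Icc]
    constructor
    · rintro ⟨h1, h2, h3 | h3⟩
      · exact Or.inl ⟨h1, h2, h3⟩
      · exact Or.inr ⟨⟨h1.1, h3.2⟩, h2, h3.1⟩
    · rintro (⟨h1, h2, h3⟩ | ⟨h1, h2, h3⟩)
      · exact ⟨h1, h2, Or.inl h3⟩
      · exact ⟨⟨h1.1, h1.2.trans h⟩, h2, Or.inr ⟨h3, h1.2⟩⟩
  · rw [disjoint_left]
    intro p h1 h2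
    have e1 := (mem_filter.1 h1).2.2
    have e2 := (mem_filter.1 h2).2.2
    omega

theorem one_sub_nonneg {p : ℕ} (hp : p.Prime) : (0 : ℝ) ≤ 1 - 1 / (p : ℝ) := by
  have h2 : (2 : ℝ) ≤ p := by exact_mod_cast hp.two_le
  rw [sub_nonneg, div_le_one (by linarith)]
  linarith

theorem prod_erase_le {R z q : ℕ} (hq : q.Prime) :
    ∏ p ∈ (PP R z).erase q, (1 - 1 / (p : ℝ)) ≤ 2 * ∏ p ∈ PP R z, (1 - 1 / (p : ℝ)) := by
  have hn : ∀ S : Finset ℕ, S ⊆ PP R z → 0 ≤ ∏ p ∈ S, (1 - 1 / (p : ℝ)) := fun S hS =>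
    prod_nonneg fun p hp => one_sub_nonneg (mem_filter.1 (hS hp)).2.1
  have h0 := hn _ (erase_subset q (PP R z))
  have h2 : (2 : ℝ) ≤ q := by exact_mod_cast hq.two_le
  have h3 : (1 : ℝ) / 2 ≤ 1 - 1 / (q : ℝ) := by
    have : 1 / (q : ℝ) ≤ 1 / 2 := one_div_le_one_div_of_le (by norm_num) h2
    linarith
  by_cases h : q ∈ PP R z
  · rw [← mul_prod_erase _ _ h]
    nlinarith
  · rw [erase_eq_of_notMem h]
    have := hn _ (subset_refl _)
    linarith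

theorem exists_class {p q a : ℕ} (hp : p.Prime) (hq : q.Prime) (hpq : p ≠ q) :
    ∃ u₀ : ℕ, u₀ < p ∧ ∀ u : ℕ, u % p = u₀ → p ∣ a + q ^ 2 * u := by
  haveI := Fact.mk hp
  have hq0 : ((q : ℕ) : ZMod p) ≠ 0 := by
    intro h
    rw [ZMod.natCast_eq_zero_iff] at h
    exact hpq ((Nat.prime_dvd_prime_iff_eq hp hq).1 h)
  refine ⟨(-(a : ZMod p) * ((q : ZMod p) ^ 2)⁻¹).val, ZMod.val_lt _, fun u hu => ?_⟩
  rw [← ZMod.natCast_eq_zero_iff]
  have h1 : ((u : ℕ) : ZMod p) = -(a : ZMod p) * ((q : ZMod p) ^ 2)⁻¹ := by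
    rw [← ZMod.natCast_zmod_val (-(a : ZMod p) * ((q : ZMod p) ^ 2)⁻¹), ← hu, ZMod.natCast_mod]
  push_cast
  rw [h1]
  field_simp
  ring

theorem pf_GAP (hSIV : Pool.Agent.H90.LC.T_SIV) (hVV : T_VV) : T_GAP := by
  obtain ⟨A, hA⟩ := hSIV
  obtain ⟨_, C₂, _, hC₂, h2⟩ := hVV
  obtain ⟨c, hc, hz⟩ := zch A
  refine ⟨8 * (C₂ * √(Real.log 2 / c)) + 1, by positivity, fun R hR => ?_⟩
  obtain ⟨N₁, hN₁2, hN₁⟩ := hz R
  obtain ⟨N₂, hN₂3, hN₂⟩ := small (VR R) (VR_pos R)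
  refine ⟨max N₁ N₂, fun N q r hN hq hqN => ?_⟩
  obtain ⟨z, hz2, hRz, hzA, hzl⟩ := hN₁ N ((le_max_left _ _).trans hN)
  obtain ⟨hs1, -, hlog, hsq⟩ := hN₂ N ((le_max_right _ _).trans hN)
  have hN3 : 3 ≤ N := hN₂3.trans ((le_max_right _ _).trans hN)
  have hN0 : (0 : ℝ) < N := by exact_mod_cast (by omega : 0 < N)
  have hq2 : (2 : ℝ) ≤ q := by exact_mod_cast hq.two_le
  -- the size of `q`
  have hqq : ((q : ℝ) ^ 2) ≤ (N : ℝ) ^ ((1 : ℝ) / 4) := by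
    have h1 : ((q : ℝ) ^ 2) = (((q : ℝ) ^ 8)) ^ ((1 : ℝ) / 4) := by
      rw [← Real.rpow_natCast, ← Real.rpow_natCast, ← Real.rpow_mul (by linarith)]
      norm_num
    rw [h1]
    exact Real.rpow_le_rpow (by positivity) (by exact_mod_cast hqN) (by norm_num)
  have hX : (N : ℝ) ^ ((3 : ℝ) / 4) ≤ N / (q : ℝ) ^ 2 := by
    rw [le_div_iff₀ (by positivity)]
    calc (N : ℝ) ^ ((3 : ℝ) / 4) * (q : ℝ) ^ 2 ≤
          (N : ℝ) ^ ((3 : ℝ) / 4) * (N : ℝ) ^ ((1 : ℝ) / 4) :=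
          mul_le_mul_of_nonneg_left hqq (by positivity)
      _ = N := by
          rw [← Real.rpow_add hN0]
          norm_num
  have hX1 : 1 ≤ N / (q : ℝ) ^ 2 := by
    refine le_trans ?_ hX
    exact Real.one_le_rpow (by exact_mod_cast (by omega : 1 ≤ N)) (by norm_num)
  have hVR := VR_pos R
  have hRHS : 0 ≤ (8 * (C₂ * √(Real.log 2 / c)) + 1) * VR R * (N / (q : ℝ) ^ 2) /
      √(Real.log N) := by
    have : 0 ≤ N / (q : ℝ) ^ 2 := by positivity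
    positivity
  rcases ((GF R N).filter (fun m => q ^ 2 ∣ m + r)).eq_empty_or_nonempty with he | ⟨m₀, hm₀⟩
  · rw [he]
    simpa using hRHS
  -- the class
  set a := m₀ % q ^ 2 with ha
  have hcl : ∀ m ∈ (GF R N).filter (fun m => q ^ 2 ∣ m + r), m % q ^ 2 = a := by
    intro m hm
    have e1 := (mem_filter.1 hm).2
    have e2 := (mem_filter.1 hm₀).2
    have e3 : m + r ≡ m₀ + r [MOD q ^ 2] :=
      ((Nat.modEq_zero_iff_dvd).2 e1).trans ((Nat.modEq_zero_iff_dvd).2 e2).symm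
    exact Nat.ModEq.add_right_cancel' r e3
  have hex : ∀ p : ℕ, ∃ u₀ : ℕ, p.Prime → p ≠ q →
      u₀ < p ∧ ∀ u : ℕ, u % p = u₀ → p ∣ a + q ^ 2 * u := by
    intro p
    by_cases h : p.Prime ∧ p ≠ q
    · obtain ⟨u, hu⟩ := exists_class (a := a) h.1 hq h.2
      exact ⟨u, fun _ _ => hu⟩
    · exact ⟨0, fun h1 h2 => absurd ⟨h1, h2⟩ h⟩
  choose u₀ hu₀ using hex
  set P := (PP R z).erase q with hP
  have hPm : ∀ p ∈ P, p ≠ q ∧ p.Prime ∧ p ≤ z ∧ (p % 4 = 3 ∨ (p % 4 = 1 ∧ p ≤ R)) := by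
    intro p hp
    have e1 := mem_erase.1 hp
    have e2 := mem_filter.1 e1.2
    exact ⟨e1.1, e2.2.1, (mem_Icc.1 e2.1).2, e2.2.2⟩
  have hsieve := hA z (N / q ^ 2 + 1) P (fun p => {u₀ p}) hz2 (by
    intro p hp
    obtain ⟨h3, h4, h5, h6⟩ := hPm p hp
    refine ⟨h4, h5, ?_, by simp, by simp, ?_⟩
    · simp only [singleton_subset_iff, mem_range]
      exact (hu₀ p h4 h3).1
    · rw [card_singleton]
      exact h4.one_lt)
  have hcard : ((GF R N).filter (fun m => q ^ 2 ∣ m + r)).card ≤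
      ((range (N / q ^ 2 + 1)).filter
        (fun u => ∀ p ∈ P, u % p ∉ ({u₀ p} : Finset ℕ))).card := by
    refine card_le_card_of_injOn (fun m => m / q ^ 2) ?_ ?_
    · intro m hm
      have hm' := hcl m hm
      obtain ⟨h3, h4⟩ := mem_GF.1 (mem_filter.1 hm).1
      have hdiv : a + q ^ 2 * (m / q ^ 2) = m := by
        rw [← hm']
        exact Nat.mod_add_div m (q ^ 2)
      rw [mem_coe, mem_filter, mem_range]
      refine ⟨Nat.lt_succ_of_le (Nat.div_le_div_right h3.2), fun p hp hmem => ?_⟩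
      obtain ⟨h5, h6, h7, h8⟩ := hPm p hp
      have h9 := (hu₀ p h6 h5).2 _ (mem_singleton.1 hmem)
      rw [hdiv] at h9
      have h10 := h4 p h6 h9
      omega
    · intro m hm n hn hmn
      have e1 := hcl m hm
      have e2 := hcl n hn
      have e3 : m / q ^ 2 = n / q ^ 2 := hmn
      rw [← Nat.mod_add_div m (q ^ 2), ← Nat.mod_add_div n (q ^ 2), e1, e2, e3]
  have hcardR : (((GF R N).filter (fun m => q ^ 2 ∣ m + r)).card : ℝ) ≤
      2 * ((N / q ^ 2 + 1 : ℕ) : ℝ) * ∏ p ∈ P, (1 - ((({u₀ p} : Finset ℕ).card : ℕ) : ℝ) / p) +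
        (z : ℝ) ^ A :=
    le_trans (by exact_mod_cast hcard) hsieve
  refine hcardR.trans ?_
  simp only [card_singleton, Nat.cast_one]
  have hU : ((N / q ^ 2 + 1 : ℕ) : ℝ) ≤ 2 * (N / (q : ℝ) ^ 2) := by
    have : ((N / q ^ 2 : ℕ) : ℝ) ≤ (N : ℝ) / ((q ^ 2 : ℕ) : ℝ) := Nat.cast_div_le
    push_cast at this ⊢
    linarith
  have hV : ∏ p ∈ P, (1 - 1 / (p : ℝ)) ≤
      2 * (C₂ * √(Real.log 2 / c) / √(Real.log N) * VR R) := by
    refine (prod_erase_le hq).trans ?_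
    rw [prod_PP hRz]
    have h3 := (h2 2 z le_rfl hz2).2
    have h4 : √(Real.log ((2 : ℕ) : ℝ) / Real.log z) ≤ √(Real.log 2 / c) / √(Real.log N) := by
      rw [← Real.sqrt_div (by positivity)]
      apply Real.sqrt_le_sqrt
      have hl2 : 0 < Real.log 2 := Real.log_pos (by norm_num)
      rw [div_div]
      push_cast
      apply div_le_div_of_nonneg_left hl2.le (by positivity) hzl
    have h5 : VA (A3 2) z ≤ C₂ * √(Real.log 2 / c) / √(Real.log N) := by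
      refine h3.trans ?_
      rw [mul_div_assoc]
      exact mul_le_mul_of_nonneg_left h4 hC₂.le
    have := mul_le_mul_of_nonneg_right h5 hVR.le
    linarith
  have hprod0 : 0 ≤ ∏ p ∈ P, (1 - 1 / (p : ℝ)) :=
    prod_nonneg fun p hp => one_sub_nonneg (hPm p hp).2.1
  have hzz : (z : ℝ) ^ A ≤ VR R * (N / (q : ℝ) ^ 2) / √(Real.log N) := by
    refine hzA.trans (hs1.trans ?_)
    apply div_le_div_of_nonneg_right _ (by positivity)
    exact mul_le_mul_of_nonneg_left hX hVR.le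
  calc 2 * ((N / q ^ 2 + 1 : ℕ) : ℝ) * ∏ p ∈ P, (1 - 1 / (p : ℝ)) + (z : ℝ) ^ A ≤
        2 * (2 * (N / (q : ℝ) ^ 2)) * (2 * (C₂ * √(Real.log 2 / c) / √(Real.log N) * VR R)) +
          VR R * (N / (q : ℝ) ^ 2) / √(Real.log N) := by
        refine add_le_add ?_ hzz
        refine mul_le_mul ?_ hV hprod0 (by positivity)
        linarith
    _ = (8 * (C₂ * √(Real.log 2 / c)) + 1) * VR R * (N / (q : ℝ) ^ 2) / √(Real.log N) := by
        ring

end Pool.Agent.H60.LCSM
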