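import Pool.Agent.H60.LCSM.GAP

/-!
# lcs_modules GPR: the upper bound for pairs
-/

set_option autoImplicit false

namespace Pool.Agent.H60.LCSM

open Finset Filter Pool.Agent.H44.MS Pool.Agent.H90.LC Pool.Agent.H90.CS

/-- the residues excluded by `p` -/
def OmG (h p : ℕ) : Finset ℕ := {0, (p - h % p) % p}

theorem card_OmG_le (h p : ℕ) : (OmG h p).card ≤ 2 := card_le_two

theorem card_OmG_pos (h p : ℕ) : 1 ≤ (OmG h p).card :=
  Finset.card_pos.2 ⟨0, by simp [OmG]⟩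

theorem card_OmG {h p : ℕ} (hp : 0 < p) (hd : ¬ p ∣ h) : (OmG h p).card = 2 := by
  unfold OmG
  apply card_pair
  have h1 : 0 < h % p := Nat.pos_of_ne_zero fun h0 => hd (Nat.dvd_of_mod_eq_zero h0)
  have h2 : h % p < p := Nat.mod_lt _ hp
  rw [Nat.mod_eq_of_lt (by omega)]
  omega

theorem pf_GPR (hSIV : Pool.Agent.H90.LC.T_SIV) (hVV : T_VV) : T_GPR := by
  obtain ⟨A, hA⟩ := hSIV
  obtain ⟨_, C₂, _, hC₂, h2⟩ := hVV
  obtain ⟨c, hc, hz⟩ := zch A
  obtain ⟨N₁, hN₁2, hN₁⟩ := hz 0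
  obtain ⟨N₂, hN₂3, hN₂⟩ := small 1 one_pos
  refine ⟨4 * (C₂ ^ 2 * (Real.log 2 / c)) + 1, by positivity, max N₁ N₂, fun N R h hN hh => ?_⟩
  obtain ⟨z, hz2, -, hzA, hzl⟩ := hN₁ N ((le_max_left _ _).trans hN)
  obtain ⟨-, hs1, hlog, hsq⟩ := hN₂ N ((le_max_right _ _).trans hN)
  have hN3 : 3 ≤ N := hN₂3.trans ((le_max_right _ _).trans hN)
  have hN0 : (3 : ℝ) ≤ N := by exact_mod_cast hN3
  set P := (Icc 1 z).filter (fun p => p.Prime ∧ p % 4 = 3) with hP
  have hPm : ∀ p ∈ P, p.Prime ∧ p ≤ z ∧ p % 4 = 3 := by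
    intro p hp
    have e2 := mem_filter.1 hp
    exact ⟨e2.2.1, (mem_Icc.1 e2.1).2, e2.2.2⟩
  have hsieve := hA z (N + 1) P (OmG h) hz2 (by
    intro p hp
    obtain ⟨h4, h5, h6⟩ := hPm p hp
    refine ⟨h4, h5, ?_, card_OmG_pos h p, card_OmG_le h p, ?_⟩
    · intro u hu
      rw [mem_range]
      unfold OmG at hu
      rcases mem_insert.1 hu with hu | hu
      · rw [hu]
        exact h4.pos
      · rw [mem_singleton.1 hu]
        exact Nat.mod_lt _ h4.pos
    · have := card_OmG_le h p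
      omega)
  have hcard : ((GF R N).filter (fun m => m + h ∈ GF R (N + h))).card ≤
      ((range (N + 1)).filter (fun u => ∀ p ∈ P, u % p ∉ OmG h p)).card := by
    refine card_le_card fun m hm => ?_
    obtain ⟨e1, e2⟩ := mem_filter.1 hm
    obtain ⟨h3, h4⟩ := mem_GF.1 e1
    obtain ⟨-, h5⟩ := mem_GF.1 e2
    rw [mem_filter, mem_range]
    refine ⟨by omega, fun p hp hmem => ?_⟩
    obtain ⟨h6, h7, h8⟩ := hPm p hp
    unfold OmG at hmem
    rcases mem_insert.1 hmem with hu | hu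
    · have := (h4 p h6 (Nat.dvd_of_mod_eq_zero hu)).1
      omega
    · have hu := mem_singleton.1 hu
      have hd : p ∣ m + h := by
        have h9 : h % p < p := Nat.mod_lt _ h6.pos
        apply Nat.dvd_of_mod_eq_zero
        rw [Nat.add_mod, hu, ← Nat.add_mod]
        rw [← Nat.add_mod_mod, Nat.sub_add_cancel h9.le, Nat.mod_self]
      have := (h5 p h6 hd).1
      omega
  have hcardR : (((GF R N).filter (fun m => m + h ∈ GF R (N + h))).card : ℝ) ≤
      2 * ((N + 1 : ℕ) : ℝ) * ∏ p ∈ P, (1 - ((OmG h p).card : ℝ) / p) + (z : ℝ) ^ A :=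
    le_trans (by exact_mod_cast hcard) hsieve
  refine hcardR.trans ?_
  -- the product
  have hkey : ∏ p ∈ P, (1 - ((OmG h p).card : ℝ) / p) ≤
      (∏ p ∈ P, (1 - 1 / (p : ℝ))) * (∏ p ∈ P, (1 - 1 / (p : ℝ))) *
        ∏ p ∈ P, (if p ∣ h then (1 - 2 / (p : ℝ))⁻¹ else 1) := by
    rw [← prod_mul_distrib, ← prod_mul_distrib]
    refine prod_le_prod (fun p hp => ?_) fun p hp => ?_
    · obtain ⟨h6, h7, h8⟩ := hPm p hp
      have h3 : (3 : ℝ) ≤ p := by exact_mod_cast Pool.Agent.H90.LCL.three_le_of_mod h8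
      have hc2 : ((OmG h p).card : ℝ) ≤ 2 := by exact_mod_cast card_OmG_le h p
      rw [sub_nonneg, div_le_one (by linarith)]
      linarith
    · obtain ⟨h6, h7, h8⟩ := hPm p hp
      have h3 : (3 : ℝ) ≤ p := by exact_mod_cast Pool.Agent.H90.LCL.three_le_of_mod h8
      have h0 : (0 : ℝ) < p := by linarith
      have hpos : 0 < 1 - 2 / (p : ℝ) := by
        rw [sub_pos, div_lt_one h0]
        linarith
      have hpos1 : 0 ≤ 1 - 1 / (p : ℝ) := one_sub_nonneg h6
      have hsq2 : 1 - 2 / (p : ℝ) ≤ (1 - 1 / (p : ℝ)) * (1 - 1 / (p : ℝ)) := by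
        have : (1 - 1 / (p : ℝ)) * (1 - 1 / (p : ℝ)) = 1 - 2 / (p : ℝ) + (1 / (p : ℝ)) ^ 2 := by
          ring
        rw [this]
        have := sq_nonneg (1 / (p : ℝ))
        linarith
      by_cases hd : p ∣ h
      · rw [if_pos hd]
        have hc1 : (1 : ℝ) ≤ ((OmG h p).card : ℝ) := by exact_mod_cast card_OmG_pos h p
        have e1 : 1 - ((OmG h p).card : ℝ) / p ≤ 1 - 1 / (p : ℝ) := by
          have := div_le_div_of_nonneg_right hc1 h0.le
          linarith
        refine e1.trans ?_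
        rw [← div_eq_mul_inv, le_div_iff₀ hpos]
        exact mul_le_mul_of_nonneg_left (by
          have : 1 / (p : ℝ) ≤ 2 / p := div_le_div_of_nonneg_right (by norm_num) h0.le
          linarith) hpos1
      · rw [if_neg hd, mul_one, card_OmG h6.pos hd]
        push_cast
        exact hsq2
  have hhp : ∏ p ∈ P, (if p ∣ h then (1 - 2 / (p : ℝ))⁻¹ else 1) ≤ hp h := by
    rw [← prod_filter, Pool.Agent.H90.LCL.hp_eq]
    have hsub : P.filter (fun p => p ∣ h) ⊆ Pool.Agent.H90.LCL.F3 h := by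
      intro p hp
      rw [mem_filter] at hp
      obtain ⟨h6, h7, h8⟩ := hPm p hp.1
      exact Pool.Agent.H90.LCL.mem_F3.2 ⟨⟨h6, hp.2, by omega⟩, h8⟩
    rw [← prod_sdiff hsub]
    refine le_mul_of_one_le_left (prod_nonneg fun p hp => ?_) (one_le_prod fun p hp => ?_)
    · exact zero_le_one.trans (Pool.Agent.H90.LCL.fac_one_le (hPm p (mem_filter.1 hp).1).2.2)
    · exact Pool.Agent.H90.LCL.fac_one_le
        (Pool.Agent.H90.LCL.mem_F3.1 (mem_sdiff.1 hp).1).2
  have hh1 := Pool.Agent.H90.LCL.one_le_hp h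
  have hVAn : 0 ≤ ∏ p ∈ P, (1 - 1 / (p : ℝ)) :=
    prod_nonneg fun p hp => one_sub_nonneg (hPm p hp).1
  have hlog2 : 0 < Real.log 2 := Real.log_pos (by norm_num)
  have hlz : 0 < Real.log z := lt_of_lt_of_le (by positivity) hzl
  have hVV2 : (∏ p ∈ P, (1 - 1 / (p : ℝ))) * (∏ p ∈ P, (1 - 1 / (p : ℝ))) ≤
      C₂ ^ 2 * (Real.log 2 / c) / Real.log N := by
    have h3 := (h2 2 z le_rfl hz2).2
    rw [VA2_eq] at h3
    have h4 := mul_le_mul h3 h3 hVAn (by positivity)
    refine h4.trans ?_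
    have e : C₂ * √(Real.log ((2 : ℕ) : ℝ) / Real.log z) *
        (C₂ * √(Real.log ((2 : ℕ) : ℝ) / Real.log z)) = C₂ ^ 2 * (Real.log 2 / Real.log z) := by
      have : √(Real.log ((2 : ℕ) : ℝ) / Real.log z) * √(Real.log ((2 : ℕ) : ℝ) / Real.log z) =
          Real.log 2 / Real.log z := by
        rw [Real.mul_self_sqrt (by push_cast; positivity)]
        norm_num
      calc _ = C₂ ^ 2 * (√(Real.log ((2 : ℕ) : ℝ) / Real.log z) *
            √(Real.log ((2 : ℕ) : ℝ) / Real.log z)) := by ring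
        _ = _ := by rw [this]
    rw [e, mul_div_assoc]
    apply mul_le_mul_of_nonneg_left _ (by positivity)
    rw [div_div]
    exact div_le_div_of_nonneg_left hlog2.le (by positivity) hzl
  have hprod : ∏ p ∈ P, (1 - ((OmG h p).card : ℝ) / p) ≤
      C₂ ^ 2 * (Real.log 2 / c) / Real.log N * hp h := by
    refine hkey.trans ?_
    refine mul_le_mul hVV2 hhp (prod_nonneg fun p hp => ?_) (by positivity)
    split_ifs
    · exact zero_le_one.trans (Pool.Agent.H90.LCL.fac_one_le (hPm p hp).2.2)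
    · exact zero_le_one
  have hprod0 : 0 ≤ ∏ p ∈ P, (1 - ((OmG h p).card : ℝ) / p) := by
    refine prod_nonneg fun p hp => ?_
    obtain ⟨h6, h7, h8⟩ := hPm p hp
    have h3 : (3 : ℝ) ≤ p := by exact_mod_cast Pool.Agent.H90.LCL.three_le_of_mod h8
    have hc2 : ((OmG h p).card : ℝ) ≤ 2 := by exact_mod_cast card_OmG_le h p
    rw [sub_nonneg, div_le_one (by linarith)]
    linarith
  have hzz : (z : ℝ) ^ A ≤ N * hp h / Real.log N := by
    refine hzA.trans (hs1.trans ?_)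
    apply div_le_div_of_nonneg_right _ (by positivity)
    rw [one_mul]
    calc (N : ℝ) ^ ((3 : ℝ) / 4) ≤ (N : ℝ) ^ (1 : ℝ) :=
          Real.rpow_le_rpow_of_exponent_le (by linarith) (by norm_num)
      _ = N * 1 := by rw [Real.rpow_one, mul_one]
      _ ≤ N * hp h := mul_le_mul_of_nonneg_left hh1 (by positivity)
  have hhp0 : 0 ≤ hp h := by linarith
  calc 2 * ((N + 1 : ℕ) : ℝ) * ∏ p ∈ P, (1 - ((OmG h p).card : ℝ) / p) + (z : ℝ) ^ A ≤
        4 * (N : ℝ) * (C₂ ^ 2 * (Real.log 2 / c) / Real.log N * hp h) +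
          N * hp h / Real.log N := by
        refine add_le_add ?_ hzz
        refine mul_le_mul ?_ hprod hprod0 (by positivity)
        push_cast
        linarith
    _ = (4 * (C₂ ^ 2 * (Real.log 2 / c)) + 1) * N * hp h / Real.log N := by
        ring

end Pool.Agent.H60.LCSM
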