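import Pool.Agent.H60.LCSM.Z

/-!
# lcs_modules SQT: the number of the squarefree shifts
-/

set_option autoImplicit false

namespace Pool.Agent.H60.LCSM

open Finset Filter Pool.Agent.H44.MS Pool.Agent.H90.LC Pool.Agent.H90.CS

theorem card_class_le {N d r : ℕ} :
    ((Icc 1 N).filter (fun m => d ∣ m + r)).card ≤ N / d + 1 := by
  have h : ((Icc 1 N).filter (fun m => d ∣ m + r)).card ≤ (range (N / d + 1)).card := by
    refine card_le_card_of_injOn (fun m => m / d) ?_ ?_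
    · intro m hm
      rw [mem_coe, mem_range]
      exact Nat.lt_succ_of_le (Nat.div_le_div_right (mem_Icc.1 (mem_filter.1 hm).1).2)
    · intro m hm n hn hmn
      have e1 := (mem_filter.1 hm).2
      have e2 := (mem_filter.1 hn).2
      have e3 : m + r ≡ n + r [MOD d] :=
        ((Nat.modEq_zero_iff_dvd).2 e1).trans ((Nat.modEq_zero_iff_dvd).2 e2).symm
      have e4 : m % d = n % d := Nat.ModEq.add_right_cancel' r e3
      have e5 : m / d = n / d := hmn
      rw [← Nat.mod_add_div m d, ← Nat.mod_add_div n d, e4, e5]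
  simpa using h

theorem small8 (ε : ℝ) (hε : 0 < ε) : ∃ N₀ : ℕ, 256 ≤ N₀ ∧ ∀ N : ℕ, N₀ ≤ N →
    (N : ℝ) ^ ((7 : ℝ) / 8) ≤ ε * N / √(Real.log N) ∧ 2 ≤ (N : ℝ) ^ ((1 : ℝ) / 8) := by
  have h1 : ∀ᶠ x : ℝ in atTop, ‖Real.log x‖ ≤ ε * ‖x ^ ((1 : ℝ) / 8)‖ :=
    (isLittleO_log_rpow_atTop (by norm_num : (0 : ℝ) < 1 / 8)).bound hε
  have h2 := tendsto_natCast_atTop_atTop.eventually h1
  obtain ⟨N₀, hN₀⟩ := eventually_atTop.1 h2
  refine ⟨max N₀ 256, le_max_right _ _, fun N hN => ?_⟩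
  have h3 := hN₀ N ((le_max_left _ _).trans hN)
  have hN256 : (256 : ℝ) ≤ N := by exact_mod_cast (le_max_right _ _).trans hN
  have hN0 : (0 : ℝ) < N := by linarith
  have hlog : 1 ≤ Real.log N := by
    rw [Real.le_log_iff_exp_le hN0]
    linarith [Real.exp_one_lt_d9]
  rw [Real.norm_of_nonneg (by linarith), Real.norm_of_nonneg (by positivity)] at h3
  have h6 : √(Real.log N) ≤ Real.log N := by
    rw [Real.sqrt_le_left (by linarith)]
    nlinarith
  refine ⟨?_, ?_⟩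
  · rw [le_div_iff₀ (Real.sqrt_pos.2 (by linarith))]
    have e : (N : ℝ) = (N : ℝ) ^ ((7 : ℝ) / 8) * (N : ℝ) ^ ((1 : ℝ) / 8) := by
      rw [← Real.rpow_add hN0]
      norm_num
    calc (N : ℝ) ^ ((7 : ℝ) / 8) * √(Real.log N) ≤
          (N : ℝ) ^ ((7 : ℝ) / 8) * (ε * (N : ℝ) ^ ((1 : ℝ) / 8)) :=
          mul_le_mul_of_nonneg_left (h6.trans h3) (by positivity)
      _ = ε * ((N : ℝ) ^ ((7 : ℝ) / 8) * (N : ℝ) ^ ((1 : ℝ) / 8)) := by ring
      _ = ε * N := by rw [← e]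
  · have : (2 : ℝ) = (256 : ℝ) ^ ((1 : ℝ) / 8) := by
      rw [show (256 : ℝ) = 2 ^ (8 : ℝ) by norm_num, ← Real.rpow_mul (by norm_num)]
      norm_num
    rw [this]
    exact Real.rpow_le_rpow (by norm_num) hN256 (by norm_num)

theorem sum_inv_sq {a b : ℕ} (ha : 1 ≤ a) : ∑ q ∈ Ioc a b, 1 / (q : ℝ) ^ 2 ≤ 1 / (a : ℝ) := by
  rcases le_total a b with h | h
  · have := sum_Ioc_inv_sq_le_sub (α := ℝ) (k := a) (n := b) (by omega) h
    have h2 : (0 : ℝ) ≤ (b : ℝ)⁻¹ := by positivity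
    simp only [one_div]
    linarith
  · rw [Ioc_eq_empty_of_le h]
    simp

theorem pf_SQT (hGLO : T_GLO) (hGAP : T_GAP) : T_SQT := by
  classical
  obtain ⟨c₀, hc₀, hglo⟩ := hGLO
  obtain ⟨C, hC, hgap⟩ := hGAP
  set R : ℕ := max 2 ⌈4 * C / c₀⌉₊ with hR
  have hR2 : 2 ≤ R := le_max_left _ _
  have hRC : 4 * C / c₀ ≤ R := (Nat.le_ceil _).trans (by exact_mod_cast le_max_right _ _)
  have hR0 : (0 : ℝ) < R := by exact_mod_cast (by omega : 0 < R)
  have hCR : C / R ≤ c₀ / 4 := by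
    rw [div_le_iff₀ hc₀] at hRC
    rw [div_le_div_iff₀ hR0 (by norm_num)]
    linarith
  have hVR := VR_pos R
  obtain ⟨N₁, hN₁⟩ := hglo R
  obtain ⟨N₂, hN₂⟩ := hgap R hR2
  obtain ⟨N₃, hN₃256, hN₃⟩ := small8 (c₀ * VR R / 16) (by positivity)
  refine ⟨c₀ * VR R / 2, by positivity, R, hR2, max N₁ (max N₂ N₃), fun N x hN hx hxN => ?_⟩
  have h1 := hN₁ N ((le_max_left _ _).trans hN)
  have h2 := fun q r => hN₂ N q r (((le_max_left _ _).trans (le_max_right _ _)).trans hN)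
  have hN3 : N₃ ≤ N := ((le_max_right _ _).trans (le_max_right _ _)).trans hN
  obtain ⟨h3, h4⟩ := hN₃ N hN3
  have hN256 : (256 : ℝ) ≤ N := by exact_mod_cast hN₃256.trans hN3
  have hN0 : (0 : ℝ) < N := by linarith
  have hlog : 0 < Real.log N := Real.log_pos (by linarith)
  have hsq : 0 < √(Real.log N) := Real.sqrt_pos.2 hlog
  set M := Nat.sqrt (2 * N) with hM
  set K := ⌊(N : ℝ) ^ ((1 : ℝ) / 8)⌋₊ with hK
  set D : ℝ := C * VR R * N / √(Real.log N) with hD
  have hD0 : 0 ≤ D := by positivity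
  set good := (GF R N).filter (fun m => Squarefree (m + x ^ 2)) with hgood
  let bad : ℕ → Finset ℕ := fun q => (GF R N).filter (fun m => q.Prime ∧ q ^ 2 ∣ m + x ^ 2)
  have hcov : GF R N ⊆ good ∪ (Ioc R M).biUnion bad := by
    intro m hm
    obtain ⟨h5, h6⟩ := mem_GF.1 hm
    by_cases hs : Squarefree (m + x ^ 2)
    · exact mem_union_left _ (mem_filter.2 ⟨hm, hs⟩)
    · rw [Nat.squarefree_iff_prime_squarefree] at hs
      push_neg at hs
      obtain ⟨q, hq, hqd⟩ := hs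
      rw [← pow_two] at hqd
      refine mem_union_right _ (mem_biUnion.2 ⟨q, ?_, mem_filter.2 ⟨hm, hq, hqd⟩⟩)
      rw [mem_Ioc]
      constructor
      · by_contra hlt
        have hqW : q ∣ WR R := by
          unfold WR
          exact Dvd.dvd.mul_left (dvd_prod_of_mem _
            (mem_filter.2 ⟨mem_Icc.2 ⟨hq.one_lt.le, by omega⟩, hq⟩)) 2
        have hqx : q ^ 2 ∣ x ^ 2 := pow_dvd_pow_of_dvd (hqW.trans hx) 2
        have hqm : q ^ 2 ∣ m := (Nat.dvd_add_left hqx).1 hqd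
        have := (h6 q hq ((dvd_pow_self q (by norm_num)).trans hqm)).2
        exact hlt this
      · rw [hM, Nat.le_sqrt']
        have : m + x ^ 2 ≤ 2 * N := by omega
        exact (Nat.le_of_dvd (by omega) hqd).trans this
  have hbad : ∀ q ∈ Ioc R M, ((bad q).card : ℝ) ≤
      D * (1 / (q : ℝ) ^ 2) + (if q ∈ Ioc K M then (N : ℝ) * (1 / (q : ℝ) ^ 2) + 1 else 0) := by
    intro q hq
    have hq0 : 0 < q := by
      have := (mem_Ioc.1 hq).1
      omega
    have hq0' : (0 : ℝ) < q := by exact_mod_cast hq0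
    by_cases hp : q.Prime
    · by_cases h8 : q ^ 8 ≤ N
      · have h9 := h2 q (x ^ 2) hp h8
        have e : bad q = (GF R N).filter (fun m => q ^ 2 ∣ m + x ^ 2) := by
          apply filter_congr
          intro m _
          simp [hp]
        rw [e]
        have h10 : (0 : ℝ) ≤ (if q ∈ Ioc K M then (N : ℝ) * (1 / (q : ℝ) ^ 2) + 1 else 0) := by
          split_ifs
          · positivity
          · exact le_rfl
        have h11 : C * VR R * (N / (q : ℝ) ^ 2) / √(Real.log N) = D * (1 / (q : ℝ) ^ 2) := by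
          rw [hD]
          ring
        linarith
      · have hKq : K < q := by
          rw [hK, Nat.floor_lt (by positivity)]
          have h12 : (N : ℝ) < (q : ℝ) ^ 8 := by exact_mod_cast Nat.lt_of_not_le h8
          have h13 : (q : ℝ) = ((q : ℝ) ^ 8) ^ ((1 : ℝ) / 8) := by
            rw [← Real.rpow_natCast, ← Real.rpow_mul hq0'.le]
            norm_num
          rw [h13]
          exact Real.rpow_lt_rpow hN0.le h12 (by norm_num)
        rw [if_pos (mem_Ioc.2 ⟨hKq, (mem_Ioc.1 hq).2⟩)]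
        have h14 : (bad q).card ≤ N / q ^ 2 + 1 := by
          refine le_trans (card_le_card ?_) (card_class_le (N := N) (d := q ^ 2) (r := x ^ 2))
          intro m hm
          obtain ⟨h5, h6⟩ := mem_filter.1 hm
          exact mem_filter.2 ⟨mem_Icc.2 (mem_GF.1 h5).1, h6.2⟩
        have h15 : ((N / q ^ 2 : ℕ) : ℝ) ≤ (N : ℝ) / ((q ^ 2 : ℕ) : ℝ) := Nat.cast_div_le
        have h16 : ((bad q).card : ℝ) ≤ ((N / q ^ 2 : ℕ) : ℝ) + 1 := by exact_mod_cast h14
        push_cast at h15 h16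
        have h17 : 0 ≤ D * (1 / (q : ℝ) ^ 2) := by positivity
        have h18 : (N : ℝ) / (q : ℝ) ^ 2 = N * (1 / (q : ℝ) ^ 2) := by ring
        linarith
    · have e : bad q = ∅ := by
        apply filter_eq_empty_iff.2
        intro m _ h
        exact hp h.1
      rw [e, card_empty, Nat.cast_zero]
      have h10 : (0 : ℝ) ≤ (if q ∈ Ioc K M then (N : ℝ) * (1 / (q : ℝ) ^ 2) + 1 else 0) := by
        split_ifs
        · positivity
        · exact le_rfl
      have h17 : 0 ≤ D * (1 / (q : ℝ) ^ 2) := by positivity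
      linarith
  have hK1 : 1 ≤ K := by
    rw [hK]
    apply Nat.le_floor
    push_cast
    linarith
  have hKlow : (N : ℝ) ^ ((1 : ℝ) / 8) / 2 ≤ K := by
    have := Nat.lt_floor_add_one ((N : ℝ) ^ ((1 : ℝ) / 8))
    rw [← hK] at this
    linarith
  have hsum : ∑ q ∈ Ioc R M, ((bad q).card : ℝ) ≤ D * (1 / R) + (N * (1 / K) + M) := by
    refine (sum_le_sum hbad).trans ?_
    rw [sum_add_distrib, ← mul_sum]
    refine add_le_add (mul_le_mul_of_nonneg_left (sum_inv_sq (by omega)) hD0) ?_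
    have h20 : ∑ q ∈ Ioc R M, (if q ∈ Ioc K M then (N : ℝ) * (1 / (q : ℝ) ^ 2) + 1 else 0) ≤
        ∑ q ∈ Ioc K M, ((N : ℝ) * (1 / (q : ℝ) ^ 2) + 1) := by
      rw [← sum_filter]
      refine sum_le_sum_of_subset_of_nonneg ?_ ?_
      · intro q hq
        exact (mem_filter.1 hq).2
      · intro q _ _
        positivity
    refine h20.trans ?_
    rw [sum_add_distrib, ← mul_sum]
    refine add_le_add (mul_le_mul_of_nonneg_left (sum_inv_sq hK1) hN0.le) ?_
    rw [sum_const, nsmul_eq_mul, mul_one, Nat.card_Ioc]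
    exact_mod_cast Nat.sub_le _ _
  have hNK : (N : ℝ) * (1 / K) ≤ 2 * (N : ℝ) ^ ((7 : ℝ) / 8) := by
    have hy0 : 0 < (N : ℝ) ^ ((1 : ℝ) / 8) / 2 := by positivity
    have h21 : 1 / (K : ℝ) ≤ 1 / ((N : ℝ) ^ ((1 : ℝ) / 8) / 2) :=
      one_div_le_one_div_of_le hy0 hKlow
    refine (mul_le_mul_of_nonneg_left h21 hN0.le).trans (le_of_eq ?_)
    have e : (N : ℝ) = (N : ℝ) ^ ((7 : ℝ) / 8) * (N : ℝ) ^ ((1 : ℝ) / 8) := by
      rw [← Real.rpow_add hN0]
      norm_num
    have hy : (N : ℝ) ^ ((1 : ℝ) / 8) ≠ 0 := by positivity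
    calc (N : ℝ) * (1 / ((N : ℝ) ^ ((1 : ℝ) / 8) / 2)) =
          ((N : ℝ) ^ ((7 : ℝ) / 8) * (N : ℝ) ^ ((1 : ℝ) / 8)) *
            (1 / ((N : ℝ) ^ ((1 : ℝ) / 8) / 2)) := by rw [← e]
      _ = 2 * (N : ℝ) ^ ((7 : ℝ) / 8) := by
          field_simp
  have hMle : (M : ℝ) ≤ 2 * (N : ℝ) ^ ((7 : ℝ) / 8) := by
    have h22 : (M : ℝ) ^ 2 ≤ 2 * N := by
      have : M ^ 2 ≤ 2 * N := by
        rw [hM]
        exact Nat.sqrt_le' (2 * N)
      exact_mod_cast this
    have h23 : (N : ℝ) ≤ ((N : ℝ) ^ ((7 : ℝ) / 8)) ^ 2 := by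
      rw [← Real.rpow_natCast, ← Real.rpow_mul hN0.le]
      calc (N : ℝ) = (N : ℝ) ^ (1 : ℝ) := (Real.rpow_one _).symm
        _ ≤ _ := Real.rpow_le_rpow_of_exponent_le (by linarith) (by norm_num)
    apply le_of_sq_le_sq _ (by positivity)
    rw [mul_pow]
    nlinarith
  have hfin : (N : ℝ) * (1 / K) + M ≤ c₀ * VR R / 4 * N / √(Real.log N) := by
    have e : c₀ * VR R / 4 * N / √(Real.log N) = 4 * (c₀ * VR R / 16 * N / √(Real.log N)) := by
      ring
    rw [e]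
    linarith
  have hDR : D * (1 / R) ≤ c₀ * VR R / 4 * N / √(Real.log N) := by
    have e1 : D * (1 / R) = C / R * (VR R * N / √(Real.log N)) := by
      rw [hD]
      ring
    have e2 : c₀ * VR R / 4 * N / √(Real.log N) = c₀ / 4 * (VR R * N / √(Real.log N)) := by ring
    rw [e1, e2]
    exact mul_le_mul_of_nonneg_right hCR (by positivity)
  have hcardle : ((GF R N).card : ℝ) ≤ good.card + ∑ q ∈ Ioc R M, ((bad q).card : ℝ) := by
    have h24 : (GF R N).card ≤ good.card + ∑ q ∈ Ioc R M, (bad q).card :=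
      (card_le_card hcov).trans ((card_union_le _ _).trans
        (Nat.add_le_add_left card_biUnion_le _))
    exact_mod_cast h24
  have e3 : c₀ * VR R / 2 * N / √(Real.log N) = c₀ * VR R * N / √(Real.log N) -
      2 * (c₀ * VR R / 4 * N / √(Real.log N)) := by ring
  rw [e3]
  linarith

end Pool.Agent.H60.LCSM
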