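import Pool.Agent.H60.LCSM.Z

/-!
# lcs_modules UPB: the upper bound
-/

set_option autoImplicit false

namespace Pool.Agent.H60.LCSM

open Finset Filter Pool.Agent.H44.MS Pool.Agent.H90.LC Pool.Agent.H90.CS

theorem pf_UPB (hS2 : T_S2) : T_UPB := by
  classical
  obtain ⟨C, hC, h2⟩ := hS2
  refine ⟨2 * C, by positivity, fun lam hlam => ?_⟩
  refine ⟨max 2 ⌈Real.exp (1 / lam ^ 2)⌉₊, fun N hN => ?_⟩
  have hN2 : 2 ≤ N := (le_max_left _ _).trans hN
  have hNe : Real.exp (1 / lam ^ 2) ≤ N :=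
    (Nat.le_ceil _).trans (by exact_mod_cast (le_max_right _ _).trans hN)
  have hN0 : (2 : ℝ) ≤ N := by exact_mod_cast hN2
  have hlog : 1 / lam ^ 2 ≤ Real.log N := by
    rw [Real.le_log_iff_exp_le (by linarith)]
    exact hNe
  have hs : 1 / lam ≤ √(Real.log N) := by
    apply Real.le_sqrt_of_sq_le
    rw [div_pow, one_pow]
    exact hlog
  have h1 : 1 ≤ lam * √(Real.log N) := by
    rw [div_le_iff₀ hlam] at hs
    linarith
  set B := ⌊lam * √(Real.log N)⌋₊ with hB
  set S := (Icc 0 N).filter (fun m : ℕ => ∃ a b : ℤ, a ^ 2 + b ^ 2 = (m : ℤ)) with hS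
  have hScard : (S.card : ℝ) ≤ C * N / √(Real.log N) := by
    have := h2 N hN2
    refine le_trans (le_of_eq ?_) this
    rw [hS, card_filter]
    push_cast
    refine sum_congr rfl fun m _ => ?_
    unfold ic
    split_ifs <;> simp
  have hsub : SmF N lam ⊆ (range (B + 1)).biUnion (fun x => S.image (fun m => m + x ^ 2)) := by
    intro n hn
    unfold SmF at hn
    rw [mem_filter, mem_range] at hn
    obtain ⟨hnN, x₁, x₂, x₃, hx, hx3⟩ := hn
    rw [mem_biUnion]
    have hle : |(x₃ : ℝ)| ≤ lam * √(Real.log N) := by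
      refine hx3.trans (mul_le_mul_of_nonneg_left (Real.sqrt_le_sqrt ?_) hlam.le)
      rcases Nat.eq_zero_or_pos n with h0 | h0
      · rw [h0, Nat.cast_zero, Real.log_zero]
        exact Real.log_nonneg (by linarith)
      · exact Real.log_le_log (by exact_mod_cast h0) (by exact_mod_cast hnN.le)
    refine ⟨x₃.natAbs, ?_, ?_⟩
    · rw [mem_range, Nat.lt_succ_iff, hB]
      apply Nat.le_floor
      rw [Nat.cast_natAbs]
      push_cast
      exact hle
    · rw [mem_image]
      refine ⟨(x₁ ^ 2 + x₂ ^ 2).toNat, ?_, ?_⟩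
      · have h0 : 0 ≤ x₁ ^ 2 + x₂ ^ 2 := by positivity
        have h3 : 0 ≤ x₃ ^ 2 := by positivity
        rw [hS, mem_filter, mem_Icc]
        refine ⟨⟨Nat.zero_le _, ?_⟩, x₁, x₂, ?_⟩
        · have : x₁ ^ 2 + x₂ ^ 2 ≤ (N : ℤ) := by
            have : (n : ℤ) ≤ N := by exact_mod_cast hnN.le
            linarith
          omega
        · rw [Int.toNat_of_nonneg h0]
      · have h0 : 0 ≤ x₁ ^ 2 + x₂ ^ 2 := by positivity
        have : (((x₁ ^ 2 + x₂ ^ 2).toNat + x₃.natAbs ^ 2 : ℕ) : ℤ) = (n : ℤ) := by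
          push_cast
          rw [Int.toNat_of_nonneg h0, sq_abs]
          exact hx
        exact_mod_cast this
  have hcard : (SmF N lam).card ≤ (B + 1) * S.card := by
    refine (card_le_card hsub).trans (card_biUnion_le.trans ?_)
    refine (sum_le_sum fun x _ => card_image_le).trans ?_
    rw [sum_const, card_range, smul_eq_mul]
  have hB1 : ((B + 1 : ℕ) : ℝ) ≤ 2 * (lam * √(Real.log N)) := by
    push_cast
    have := Nat.floor_le (by linarith : 0 ≤ lam * √(Real.log N))
    linarith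
  have hsq : 0 < √(Real.log N) := lt_of_lt_of_le (by positivity) hs
  calc ((SmF N lam).card : ℝ) ≤ ((B + 1 : ℕ) : ℝ) * S.card := by exact_mod_cast hcard
    _ ≤ 2 * (lam * √(Real.log N)) * (C * N / √(Real.log N)) :=
        mul_le_mul hB1 hScard (by positivity) (by positivity)
    _ = 2 * C * lam * N := by
        field_simp

end Pool.Agent.H60.LCSM
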