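import Pool.Agent.H90.CS.Targets
import Pool.Agent.H90.LCL.WZ

/-!
# Choice of the sieving level and elementary inequalities
-/

set_option autoImplicit false

namespace Pool.Agent.H60.LCSM

open Finset Filter Pool.Agent.H44.MS Pool.Agent.H90.LC Pool.Agent.H90.CS

theorem zch (A : ℕ) : ∃ c : ℝ, 0 < c ∧ ∀ R : ℕ, ∃ N₀ : ℕ, 2 ≤ N₀ ∧ ∀ N : ℕ, N₀ ≤ N →
    ∃ z : ℕ, 2 ≤ z ∧ R ≤ z ∧ (z : ℝ) ^ A ≤ (N : ℝ) ^ ((1 : ℝ) / 4) ∧
      c * Real.log N ≤ Real.log z := by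
  set k : ℝ := 4 * ((A : ℝ) + 1) with hk
  have hk0 : 0 < k := by positivity
  refine ⟨1 / (2 * k), by positivity, fun R => ?_⟩
  have ht : Tendsto (fun N : ℕ => (N : ℝ) ^ (1 / k)) atTop atTop :=
    (tendsto_rpow_atTop (by positivity)).comp tendsto_natCast_atTop_atTop
  obtain ⟨N₀, hN₀⟩ := eventually_atTop.1 (ht.eventually_ge_atTop (max ((R : ℝ) + 1) 4))
  refine ⟨max N₀ 2, le_max_right _ _, fun N hN => ?_⟩
  have h1 := hN₀ N ((le_max_left _ _).trans hN)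
  have hN2 : (2 : ℝ) ≤ N := by exact_mod_cast (le_max_right _ _).trans hN
  set y : ℝ := (N : ℝ) ^ (1 / k) with hy
  have hyR : (R : ℝ) + 1 ≤ y := (le_max_left _ _).trans h1
  have hy4 : (4 : ℝ) ≤ y := (le_max_right _ _).trans h1
  have hzle : ((⌊y⌋₊ : ℕ) : ℝ) ≤ y := Nat.floor_le (by linarith)
  have hzlt : y < (⌊y⌋₊ : ℕ) + 1 := Nat.lt_floor_add_one y
  refine ⟨⌊y⌋₊, ?_, ?_, ?_, ?_⟩
  · apply Nat.le_floor
    push_cast
    linarith
  · apply Nat.le_floor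
    linarith
  · have hz1 : (1 : ℝ) ≤ (⌊y⌋₊ : ℕ) := by linarith
    calc ((⌊y⌋₊ : ℕ) : ℝ) ^ A ≤ ((⌊y⌋₊ : ℕ) : ℝ) ^ (A + 1) :=
          pow_le_pow_right₀ hz1 (Nat.le_succ A)
      _ ≤ y ^ (A + 1) := pow_le_pow_left₀ (by positivity) hzle _
      _ = (N : ℝ) ^ ((1 : ℝ) / 4) := by
          rw [hy, ← Real.rpow_natCast, ← Real.rpow_mul (by positivity)]
          congr 1
          rw [hk]
          push_cast
          field_simp
  · have h2 : √y ≤ (⌊y⌋₊ : ℕ) := by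
      have h3 : √y ≤ y / 2 := by
        rw [Real.sqrt_le_left (by linarith)]
        nlinarith
      linarith
    have h4 : Real.log (√y) = 1 / (2 * k) * Real.log N := by
      rw [Real.log_sqrt (by linarith), hy, Real.log_rpow (by linarith)]
      field_simp
    rw [← h4]
    exact Real.log_le_log (Real.sqrt_pos.2 (by linarith)) h2

theorem small (ε : ℝ) (hε : 0 < ε) : ∃ N₀ : ℕ, 3 ≤ N₀ ∧ ∀ N : ℕ, N₀ ≤ N →
    (N : ℝ) ^ ((1 : ℝ) / 4) ≤ ε * (N : ℝ) ^ ((3 : ℝ) / 4) / √(Real.log N) ∧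
    (N : ℝ) ^ ((1 : ℝ) / 4) ≤ ε * (N : ℝ) ^ ((3 : ℝ) / 4) / Real.log N ∧
      1 ≤ Real.log N ∧ 1 ≤ √(Real.log N) := by
  have h1 : ∀ᶠ x : ℝ in atTop, ‖Real.log x‖ ≤ ε * ‖x ^ ((1 : ℝ) / 2)‖ :=
    (isLittleO_log_rpow_atTop (by norm_num : (0 : ℝ) < 1 / 2)).bound hε
  have h2 := tendsto_natCast_atTop_atTop.eventually (h1.and (eventually_ge_atTop (3 : ℝ)))
  obtain ⟨N₀, hN₀⟩ := eventually_atTop.1 h2
  refine ⟨max N₀ 3, le_max_right _ _, fun N hN => ?_⟩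
  obtain ⟨h3, h4⟩ := hN₀ N ((le_max_left _ _).trans hN)
  have hN0 : (0 : ℝ) < N := by linarith
  have hlog : 1 ≤ Real.log N := by
    rw [Real.le_log_iff_exp_le hN0]
    linarith [Real.exp_one_lt_d9]
  have hsq : 1 ≤ √(Real.log N) := by
    rw [Real.one_le_sqrt]
    exact hlog
  rw [Real.norm_of_nonneg (by linarith), Real.norm_of_nonneg (by positivity)] at h3
  have h5 : (N : ℝ) ^ ((1 : ℝ) / 4) * Real.log N ≤ ε * (N : ℝ) ^ ((3 : ℝ) / 4) := by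
    have e : (N : ℝ) ^ ((3 : ℝ) / 4) = (N : ℝ) ^ ((1 : ℝ) / 4) * (N : ℝ) ^ ((1 : ℝ) / 2) := by
      rw [← Real.rpow_add hN0]
      norm_num
    rw [e]
    have : 0 ≤ (N : ℝ) ^ ((1 : ℝ) / 4) := by positivity
    nlinarith [mul_le_mul_of_nonneg_left h3 this]
  have h6 : √(Real.log N) ≤ Real.log N := by
    rw [Real.sqrt_le_left (by linarith)]
    nlinarith
  refine ⟨?_, ?_, hlog, hsq⟩
  · rw [le_div_iff₀ (by linarith)]
    refine le_trans (mul_le_mul_of_nonneg_left h6 (by positivity)) h5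
  · rw [le_div_iff₀ (by linarith)]
    exact h5

theorem VR_pos (R : ℕ) : 0 < VR R := by
  unfold VR
  refine prod_pos fun p hp => ?_
  have h := (mem_filter.1 hp).2
  have h2 : (2 : ℝ) ≤ p := by exact_mod_cast h.1.two_le
  rw [sub_pos, div_lt_one (by linarith)]
  linarith

theorem VA2_eq (z : ℕ) : VA (A3 2) z =
    ∏ p ∈ (Icc 1 z).filter (fun p => p.Prime ∧ p % 4 = 3), (1 - 1 / (p : ℝ)) := by
  unfold VA
  rw [prod_filter]
  refine prod_congr rfl fun p _ => ?_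
  unfold ic A3
  by_cases h1 : p.Prime <;> by_cases h2 : p % 4 = 3
  · have : 2 < p := by omega
    simp [h1, h2, this]
  · simp [h1, h2]
  · simp [h1, h2]
  · simp [h1, h2]

theorem mem_GF {R N m : ℕ} : m ∈ GF R N ↔ (1 ≤ m ∧ m ≤ N) ∧ Gd R m := by
  classical
  unfold GF
  simp only [mem_filter, mem_Icc]

theorem card_GF_le (R N : ℕ) : (GF R N).card ≤ N := by
  have : GF R N ⊆ Icc 1 N := by
    intro m hm
    exact mem_Icc.2 (mem_GF.1 hm).1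
  exact (card_le_card this).trans (by simp)

end Pool.Agent.H60.LCSM
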